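import Pool.Prelude.Def_F_0dc91acc
import Pool.Agent.H61.Sparse.Main

/-!
A lower bound for the Mahler measure of an integer polynomial in terms of the number `k` of its
nonzero coefficients: `log M(f) ≥ (500 k) ^ (-3 k)` if `M(f) > 1`.  The paper proof is in
`Pool/Agent/H61/Sparse/Defs.lean`.
-/

set_option autoImplicit false

open Polynomial N60ffa576

namespace Pool.Agent.H61.Kept.SparseBound

/-- If `f ∈ ℤ[X]` has `k` nonzero coefficients and `M(f) > 1` then
`log M(f) ≥ 1 / (500 k) ^ (3 k)`. -/
theorem result (f : ℤ[X]) (hM : 1 < mahlerMeasureZ f) :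
    1 / (500 * (f.support.card : ℝ)) ^ (3 * f.support.card) ≤ Real.log (mahlerMeasureZ f) :=
  Pool.Agent.H61.Sparse.sparse f hM

end Pool.Agent.H61.Kept.SparseBound
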